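import Pool.Agent.W360.MQ.Stm
import Pool.Agent.W439.BQ.FlowF

/-! Project MQ (helper360), part CVX: convex functions are quasiconvex (Jensen). -/

set_option autoImplicit false

namespace Pool.Agent.W465.MQ.CVX

open MeasureTheory Set Filter Topology
open Pool.Agent.W360.MQ
open Pool.Agent.W488.IW (V Idx gd box)
open Pool.Agent.W439.BQ.FlowF (cont_gd vol_cube integral_lin)

theorem integral_gd (Λ : Finset Idx) (c : Idx → ℂ) : ∫ x in Icc (0 : V) 1, gd Λ c x = 0 := by
  have hg := cont_gd Λ c
  have hi : IntegrableOn (fun x => gd Λ c x) (Icc (0 : V) 1) :=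
    hg.continuousOn.integrableOn_compact isCompact_Icc
  refine SeparatingDual.eq_zero_of_forall_dual_eq_zero (R := ℝ) fun f => ?_
  rw [← ContinuousLinearMap.integral_comp_comm f hi]
  exact integral_lin f Λ c

theorem main : S_CVX := by
  intro w hw hwc F0 N c
  have hg := cont_gd (box N) c
  have : IsProbabilityMeasure (volume.restrict (Icc (0 : V) 1)) := by
    constructor
    rw [Measure.restrict_apply_univ]
    have h := vol_cube
    rw [Measure.real] at h
    exact (ENNReal.toReal_eq_one_iff _).1 h
  have hi : Integrable (fun x => gd (box N) c x) (volume.restrict (Icc (0 : V) 1)) :=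
    hg.continuousOn.integrableOn_compact isCompact_Icc
  have hi0 : Integrable (fun x => F0 + gd (box N) c x) (volume.restrict (Icc (0 : V) 1)) :=
    (continuous_const.add hg).continuousOn.integrableOn_compact isCompact_Icc
  have hi1 : Integrable (w ∘ fun x => F0 + gd (box N) c x) (volume.restrict (Icc (0 : V) 1)) :=
    (hwc.comp (continuous_const.add hg)).continuousOn.integrableOn_compact isCompact_Icc
  have hj := hw.map_integral_le (f := fun x => F0 + gd (box N) c x) hwc.continuousOn isClosed_univ
    (Eventually.of_forall fun _ => mem_univ _) hi0 hi1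
  have he : ∫ x in Icc (0 : V) 1, (F0 + gd (box N) c x) = F0 := by
    rw [integral_add (integrable_const _) hi, integral_gd, integral_const]
    simp
  rw [he] at hj
  exact hj

end Pool.Agent.W465.MQ.CVX
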